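import Pool.Agent.Helper85.QT.St2

set_option autoImplicit false

open MeasureTheory Matrix Set Topology
open scoped ENNReal ComplexConjugate

namespace Pool.Agent.Helper56.QT
open Pool.Agent.Helper85.QT Pool.Agent.Helper86.QA
open Pool.Agent.Helper35.PM (hs)

theorem bnd_cosh (v : ℝ) : 1 + v ^ 2 / 2 ≤ Real.cosh v := by
  have h1 : Real.cosh v = Real.cosh (v / 2) ^ 2 + Real.sinh (v / 2) ^ 2 := by
    rw [← Real.cosh_two_mul]; congr 1; ring
  have h2 := Real.cosh_sq (v / 2)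
  have h3 : (v / 2) ^ 2 ≤ Real.sinh (v / 2) ^ 2 := by
    rcases le_total 0 (v / 2) with h | h
    · have := Real.self_le_sinh_iff.mpr h
      exact pow_le_pow_left₀ h this 2
    · have h' : 0 ≤ -(v / 2) := by linarith
      have := Real.self_le_sinh_iff.mpr h'
      rw [Real.sinh_neg] at this
      nlinarith
  rw [h1, h2]
  nlinarith

theorem bnd_cos (θ : ℝ) (h : |θ| ≤ Real.pi) : θ ^ 2 / 5 ≤ 1 - Real.cos θ := by
  have h1 := Real.cos_le_one_sub_mul_cos_sq h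
  have hp : Real.pi ^ 2 ≤ 10 := by
    have := Real.pi_lt_d2
    have := Real.pi_pos
    nlinarith
  have hp0 : 0 < Real.pi ^ 2 := by positivity
  have h2 : 1 / 5 ≤ 2 / Real.pi ^ 2 := by
    rw [div_le_div_iff₀ (by norm_num) hp0]
    linarith
  nlinarith [sq_nonneg θ]


theorem bnd_ch (lam : ℂ) (T : ℝ) (ξ η : ℂ) (hl : lam ≠ 0) (hT : 0 < T) (h2 : T * ‖lam‖ ≤ 1 / 2)
    (hξ : ξ ≠ 0) (hη : η ≠ 0) (hd : 1 ≤ fd lam ξ η) :
    1 + 3 / (20 * T ^ 2) ≤ ch (xp lam T ξ) (xp lam T η) := by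
  have hln : 0 < ‖lam‖ := norm_pos_iff.mpr hl
  set s : ℝ := T * ‖lam‖ with hs
  have hs0 : 0 < s := by positivity
  set q : ℝ := Real.sqrt (1 - s ^ 2) with hq
  have hs2 : s ^ 2 ≤ 1 / 4 := by nlinarith
  have hq2 : q ^ 2 = 1 - s ^ 2 := Real.sq_sqrt (by linarith)
  set w : ℂ := Complex.log (ξ / η) with hw
  have hne : ξ / η ≠ 0 := div_ne_zero hξ hη
  have hew : Complex.exp w = ξ / η := Complex.exp_log hne
  have hx : ξ = η * Complex.exp w := by rw [hew]; field_simp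
  have hηn : 0 < ‖η‖ := norm_pos_iff.mpr hη
  have hnx : ‖ξ‖ = ‖η‖ * Real.exp w.re := by
    rw [hx, norm_mul, Complex.norm_exp]
  have hang : |w.im| ≤ Real.pi := by
    rw [hw, Complex.log_im]; exact Complex.abs_arg_le_pi _
  have hwn : ‖lam‖ ^ 2 ≤ w.re ^ 2 + w.im ^ 2 := by
    have h1 : ‖lam‖ ≤ ‖w‖ := by
      have : 1 ≤ ‖w‖ / ‖lam‖ := hd
      rwa [le_div_iff₀ hln, one_mul] at this
    have h3 : ‖w‖ ^ 2 = w.re ^ 2 + w.im ^ 2 := by
      rw [Complex.sq_norm, Complex.normSq_apply]; ring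
    rw [← h3]
    exact pow_le_pow_left₀ hln.le h1 2
  have hdist : ‖ξ - η‖ ^ 2 = ‖η‖ ^ 2 * (Real.exp w.re ^ 2 - 2 * Real.exp w.re * Real.cos w.im + 1) := by
    have h1 : ξ - η = η * (Complex.exp w - 1) := by rw [hx]; ring
    rw [h1, norm_mul, mul_pow]
    congr 1
    rw [Complex.sq_norm, Complex.normSq_apply, Complex.sub_re, Complex.sub_im, Complex.exp_re,
      Complex.exp_im, Complex.one_re, Complex.one_im]
    have := Real.sin_sq_add_cos_sq w.im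
    have h5 : Real.sin w.im ^ 2 = 1 - Real.cos w.im ^ 2 := by linarith
    ring_nf
    rw [h5]
    ring
  set e : ℝ := Real.exp w.re with he
  have he0 : 0 < e := Real.exp_pos _
  have hch : ch (xp lam T ξ) (xp lam T η) =
      q ^ 2 * (Real.cosh w.re - Real.cos w.im) / s ^ 2 + Real.cosh w.re := by
    have hcosh : Real.cosh w.re = (e + 1 / e) / 2 := by
      rw [Real.cosh_eq, Real.exp_neg, he, one_div]
    have hxp1 : (xp lam T ξ).1 - (xp lam T η).1 = (ξ - η) * (q : ℂ) := by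
      show ξ * ((Real.sqrt (1 - (T * ‖lam‖) ^ 2) : ℝ) : ℂ) - η * ((Real.sqrt (1 - (T * ‖lam‖) ^ 2) : ℝ) : ℂ) = _
      rw [← hs, ← hq]; ring
    have hnq : ‖(xp lam T ξ).1 - (xp lam T η).1‖ ^ 2 = ‖ξ - η‖ ^ 2 * q ^ 2 := by
      rw [hxp1, norm_mul, mul_pow, Complex.norm_real, Real.norm_eq_abs, sq_abs]
    have hx2 : (xp lam T ξ).2 = ‖ξ‖ * s := rfl
    have hy2 : (xp lam T η).2 = ‖η‖ * s := rfl
    unfold ch
    rw [hnq, hx2, hy2, hdist, hnx, hcosh]
    field_simp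
    ring
  rw [hch]
  have h1 := bnd_cosh w.re
  have h3 := bnd_cos w.im hang
  have h4 : ‖lam‖ ^ 2 / 5 ≤ Real.cosh w.re - Real.cos w.im := by nlinarith [sq_nonneg w.re]
  have h5 : 1 ≤ Real.cosh w.re := Real.one_le_cosh _
  have h6 : 3 / (20 * T ^ 2) ≤ q ^ 2 * (Real.cosh w.re - Real.cos w.im) / s ^ 2 := by
    have h7 : 3 / 4 * (‖lam‖ ^ 2 / 5) ≤ q ^ 2 * (Real.cosh w.re - Real.cos w.im) := by
      apply mul_le_mul _ h4 (by positivity) (by positivity)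
      linarith
    calc 3 / (20 * T ^ 2) = 3 / 4 * (‖lam‖ ^ 2 / 5) / s ^ 2 := by
          rw [hs]; field_simp; norm_num
      _ ≤ _ := by gcongr
  linarith


/-- ball -/
def Bl (x : Pt) (r : ℝ) : Set Pt := {z | z ∈ up ∧ ch x z ≤ r}

theorem Bl_meas (x : Pt) (r : ℝ) : MeasurableSet (Bl x r) := by
  have h : Measurable (fun z : Pt => ch x z) := by
    unfold ch
    fun_prop
  exact up_meas.inter (measurableSet_le h measurable_const)

theorem Bl_vol (hACT : StACT) (hCHI : StCHI) (hVOL : StVOL) (x : Pt) (hx : x ∈ up) (r : ℝ) :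
    vol (Bl x r) = vol (Bl oo r) := by
  have hoo : ga (gx x hx) oo = x := by
    rw [hACT.2.2.2.2.1 x hx oo]
    simp [oo]
  have hoou : oo ∈ up := by show (0 : ℝ) < 1; norm_num
  have hmi : Measurable (fun z => (Bl x r).indicator (fun _ => (1 : ℝ≥0∞)) z) :=
    measurable_const.indicator (Bl_meas x r)
  have h1 := hVOL.2.1 (gx x hx) _ hmi
  have h2 : ∫⁻ z, (Bl x r).indicator (fun _ => (1 : ℝ≥0∞)) z ∂vol = vol (Bl x r) := by
    rw [lintegral_indicator (Bl_meas x r)]; simp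
  have h3 : ∫⁻ z, (Bl x r).indicator (fun _ => (1 : ℝ≥0∞)) (ga (gx x hx) z) ∂vol = vol (Bl oo r) := by
    have h4 : ∫⁻ z, (Bl oo r).indicator (fun _ => (1 : ℝ≥0∞)) z ∂vol = vol (Bl oo r) := by
      rw [lintegral_indicator (Bl_meas oo r)]; simp
    rw [← h4]
    apply lintegral_congr_ae
    filter_upwards [ae_up] with z hz
    have h5 : ch x (ga (gx x hx) z) = ch oo z := by
      have := (hCHI.2.1 (gx x hx) oo hoou z hz).1
      rwa [hoo] at this
    have h6 : ga (gx x hx) z ∈ up := (hACT.1 _ z hz).2.1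
    by_cases h7 : ch oo z ≤ r
    · rw [indicator_of_mem, indicator_of_mem]
      · exact ⟨hz, h7⟩
      · exact ⟨h6, by rw [h5]; exact h7⟩
    · rw [indicator_of_notMem, indicator_of_notMem]
      · exact fun h => h7 h.2
      · exact fun h => h7 (by rw [← h5]; exact h.2)
  rw [← h2, ← h1, h3]

theorem Bl_pos (r : ℝ) (hr : 1 < r) : 0 < vol (Bl oo r) := by
  have hc : ContinuousOn (fun z : Pt => ch oo z) up := by
    unfold ch
    apply ContinuousOn.div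
    · fun_prop
    · fun_prop
    · intro z hz
      have : 0 < z.2 := hz
      simp only [oo]
      positivity
  have hU : IsOpen (up ∩ (fun z : Pt => ch oo z) ⁻¹' Iio r) := hc.isOpen_inter_preimage up_open isOpen_Iio
  have hne : (up ∩ (fun z : Pt => ch oo z) ⁻¹' Iio r).Nonempty := by
    refine ⟨oo, ?_, ?_⟩
    · show (0 : ℝ) < 1; norm_num
    · show ch oo oo < r
      have : ch oo oo = 1 := by simp [ch, oo]
      rw [this]; exact hr
  have hsub : up ∩ (fun z : Pt => ch oo z) ⁻¹' Iio r ⊆ Bl oo r := fun z hz => ⟨hz.1, le_of_lt hz.2⟩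
  refine lt_of_lt_of_le ?_ (measure_mono hsub)
  rw [pos_iff_ne_zero]
  intro h0
  have hac : (volume : Measure Pt).restrict up ≪ vol := by
    unfold vol
    apply withDensity_absolutelyContinuous'
    · fun_prop
    · filter_upwards [ae_restrict_mem up_meas] with z hz
      have : 0 < z.2 := hz
      have h1 : 0 < 1 / z.2 ^ 3 := by positivity
      exact (ENNReal.ofReal_pos.mpr h1).ne'
  have h1 := hac h0
  rw [Measure.restrict_apply hU.measurableSet, inter_comm up, inter_assoc, inter_self, inter_comm] at h1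
  exact (hU.measure_pos volume hne).ne' h1


/-- an abstract counting lemma: finitely many sets whose orbits are embedded and disjoint -/
theorem bnd_count (hSW1 : StSW1) {Γ : Type} [Group Γ] [Countable Γ] (a : Γ → Pt → Pt) (D W : Set Pt)
    (hact : ActOn a up vol) (hD : FDOn a up D) (hW : MeasurableSet W)
    (hinv : ∀ γ : Γ, ∀ x ∈ up, (a γ x ∈ W ↔ x ∈ W))
    (P : Finset ℂ) (Bs : ℂ → Set Pt) (hBm : ∀ ξ ∈ P, MeasurableSet (Bs ξ)) (hBW : ∀ ξ ∈ P, Bs ξ ⊆ W)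
    (hdis : ∀ ξ ∈ P, ∀ η ∈ P, ∀ γ δ : Γ, ∀ x ∈ up, a γ x ∈ Bs ξ → a δ x ∈ Bs η → ξ = η ∧ γ = δ) :
    ∑ ξ ∈ P, vol (Bs ξ) ≤ vol (D ∩ W) := by
  classical
  set f : Pt → ℝ≥0∞ := W.indicator (fun _ => 1) with hf
  set ψ : Pt → ℝ≥0∞ := fun z => ∑ ξ ∈ P, (Bs ξ).indicator (fun _ => (1 : ℝ≥0∞)) z with hψ
  have hfm : Measurable f := measurable_const.indicator hW
  have hψm : Measurable ψ := by
    apply Finset.measurable_sum
    intro ξ hξ
    exact measurable_const.indicator (hBm ξ hξ)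
  have hfi : ∀ (γ : Γ), ∀ x ∈ up, f (a γ x) = f x := by
    intro γ x hx
    simp only [hf, indicator_apply, hinv γ x hx]
  have hmain := (hSW1 Γ Pt a up D vol f hact hD hfm hfi).1 ψ hψm
  have hR : ∫⁻ x, f x * ψ x ∂vol = ∑ ξ ∈ P, vol (Bs ξ) := by
    have h1 : ∀ x, f x * ψ x = ∑ ξ ∈ P, (Bs ξ).indicator (fun _ => (1 : ℝ≥0∞)) x := by
      intro x
      simp only [hψ, Finset.mul_sum]
      apply Finset.sum_congr rfl
      intro ξ hξ
      by_cases hx : x ∈ Bs ξ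
      · rw [indicator_of_mem hx, hf, indicator_of_mem (hBW ξ hξ hx), one_mul]
      · rw [indicator_of_notMem hx, mul_zero]
    simp_rw [h1]
    rw [lintegral_finsetSum]
    · apply Finset.sum_congr rfl
      intro ξ hξ
      rw [lintegral_indicator (hBm ξ hξ)]; simp
    · intro ξ hξ
      exact measurable_const.indicator (hBm ξ hξ)
  have hL : ∫⁻ x in D, f x * ∑' γ : Γ, ψ (a γ x) ∂vol ≤ vol (D ∩ W) := by
    have h1 : ∫⁻ x in D, f x * ∑' γ : Γ, ψ (a γ x) ∂vol ≤ ∫⁻ x in D, f x ∂vol := by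
      apply setLIntegral_mono' hD.mD
      intro x hx
      have hxu : x ∈ up := hD.sub hx
      have h2 : ∑' γ : Γ, ψ (a γ x) ≤ 1 := by
        by_cases hex : ∃ γ : Γ, ∃ ξ ∈ P, a γ x ∈ Bs ξ
        · obtain ⟨γ, ξ, hξ, hγ⟩ := hex
          rw [tsum_eq_single γ]
          · simp only [hψ]
            rw [Finset.sum_eq_single_of_mem ξ hξ]
            · rw [indicator_of_mem hγ]
            · intro η hη hne
              apply indicator_of_notMem
              intro h3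
              exact hne (hdis η hη ξ hξ γ γ x hxu h3 hγ).1
          · intro δ hne
            simp only [hψ]
            apply Finset.sum_eq_zero
            intro η hη
            apply indicator_of_notMem
            intro h3
            exact hne (hdis η hη ξ hξ δ γ x hxu h3 hγ).2
        · push Not at hex
          have h3 : ∀ γ : Γ, ψ (a γ x) = 0 := by
            intro γ
            simp only [hψ]
            apply Finset.sum_eq_zero
            intro η hη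
            exact indicator_of_notMem (hex γ η hη) _
          simp [h3]
      calc f x * ∑' γ : Γ, ψ (a γ x) ≤ f x * 1 := by gcongr
        _ = f x := mul_one _
    refine h1.trans ?_
    rw [hf, lintegral_indicator hW]
    simp only [lintegral_const, one_mul]
    rw [Measure.restrict_apply MeasurableSet.univ, univ_inter]
    rw [Measure.restrict_apply hW, inter_comm]
  rw [← hR, ← hmain]
  exact hL


theorem bnd_sqrt (a b e : ℝ) (ha : 1 ≤ a) (ha' : a ≤ 1 + e) (hb : 1 ≤ b) (hb' : b ≤ 1 + e) :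
    a * b + Real.sqrt (a ^ 2 - 1) * Real.sqrt (b ^ 2 - 1) ≤ 2 * (1 + e) ^ 2 - 1 := by
  have h1 : Real.sqrt (a ^ 2 - 1) ≤ Real.sqrt ((1 + e) ^ 2 - 1) :=
    Real.sqrt_le_sqrt (by nlinarith)
  have h2 : Real.sqrt (b ^ 2 - 1) ≤ Real.sqrt ((1 + e) ^ 2 - 1) :=
    Real.sqrt_le_sqrt (by nlinarith)
  have h3 : Real.sqrt (a ^ 2 - 1) * Real.sqrt (b ^ 2 - 1) ≤
      Real.sqrt ((1 + e) ^ 2 - 1) * Real.sqrt ((1 + e) ^ 2 - 1) :=
    mul_le_mul h1 h2 (Real.sqrt_nonneg _) (Real.sqrt_nonneg _)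
  rw [Real.mul_self_sqrt (by nlinarith)] at h3
  nlinarith

theorem hBND (hACT : Pool.Agent.Helper86.QA.StACT) (hCHI : Pool.Agent.Helper86.QA.StCHI)
    (hVOL : Pool.Agent.Helper86.QA.StVOL) (hSW1 : Pool.Agent.Helper86.QA.StSW1)
    (hACU : Pool.Agent.Helper86.QA.StACU) (hPD3 : Pool.Agent.Helper86.QA.StPD3)
    (hSB3 : Pool.Agent.Helper85.QT.StSB3) (hSB4 : Pool.Agent.Helper85.QT.StSB4)
    (hCAN : Pool.Agent.Helper85.QT.StCAN) (hTRI : Pool.Agent.Helper85.QT.StTRI)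
    (hTTX : Pool.Agent.Helper85.QT.StTTX) (hNEA : Pool.Agent.Helper85.QT.StNEA)
    (hANA : Pool.Agent.Helper85.QT.StANA) (hANB : Pool.Agent.Helper85.QT.StANB) :
    Pool.Agent.Helper85.QT.StBND := by
  classical
  intro c0 ε a₀ hc0 hε ha
  obtain ⟨C₁, hC₁, hcan⟩ := hCAN 6 a₀ (by norm_num) ha
  have hc00 : 0 < c0 := by linarith
  obtain ⟨e, he0, heε, he1, he2⟩ : ∃ e : ℝ, 0 < e ∧ e ≤ ε ∧ e ≤ 1 / 10 ∧ e ≤ 1 / (200 * c0 ^ 2) := by
    refine ⟨min ε (min (1 / 10) (1 / (200 * c0 ^ 2))), ?_, min_le_left _ _,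
      (min_le_right _ _).trans (min_le_left _ _), (min_le_right _ _).trans (min_le_right _ _)⟩
    refine lt_min hε (lt_min (by norm_num) (by positivity))
  have hvpos := Bl_pos (1 + e) (by linarith)
  obtain ⟨v, hv0, hv1⟩ : ∃ v : ℝ, 0 < v ∧ ENNReal.ofReal v ≤ vol (Bl oo (1 + e)) := by
    obtain ⟨r, hr0, hr1⟩ := ENNReal.lt_iff_exists_nnreal_btwn.mp hvpos
    refine ⟨r, by exact_mod_cast hr0, ?_⟩
    rw [ENNReal.ofReal_coe_nnreal]
    exact hr1.le
  refine ⟨max 1 (C₁ / v), 8 * Real.pi * c0, le_max_left _ _, ?_⟩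
  intro Γ _ ρ σ τ A B F F' α lam M G m φ C3 hann hm hdt heb hF hF' DA DB hDA hDB haA haB s hs1 hs2 hsum
  have h2s : 0 < 2 - s := by linarith
  refine ⟨?_, ?_⟩
  · rw [le_div_iff₀ h2s]
    have := le_max_left 1 (C₁ / v)
    linarith
  intro P hP hPd
  have kd := hann.kd
  obtain ⟨hlam, -, -, -, -, -, -, hlm, -⟩ := hANB Γ ρ A B α lam M G m φ C3 hann
  have hln : 0 < ‖lam‖ := norm_pos_iff.mpr hlam
  have hTl : 2 * c0 * ‖lam‖ ≤ 1 / 2 := by
    have h1 : ‖lam‖ * (8 * Real.pi * c0) ≤ 2 * Real.pi :=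
      (mul_le_mul_of_nonneg_left hm hln.le).trans hlm
    have h2 : 2 * Real.pi * (4 * c0 * ‖lam‖) ≤ 2 * Real.pi * 1 := by linarith
    have h3 := le_of_mul_le_mul_left h2 (by positivity)
    linarith
  have hT0 : 0 < 2 * c0 := by linarith
  obtain ⟨hcount, hact, -, -, -, -⟩ := hACU Γ ρ A B kd
  obtain ⟨D, hD, -⟩ := (hPD3 Γ ρ A B kd).1 ∅ isOpen_empty (empty_subset _)
  have hC := hcan Γ ρ σ τ A B F F' kd hF hF' D DA DB hD hDA hDB haA haB s ⟨hs1, hs2.le⟩ hsum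
  obtain ⟨-, httx2, -, -, httx5, -, -⟩ := hTTX lam hlam
  obtain ⟨-, hnea2⟩ := hNEA Γ ρ A B kd lam hlam
  obtain ⟨-, hana2, -, -, -⟩ := hANA Γ ρ A B α lam M G m φ C3 hann
  obtain ⟨hsb1, -, -⟩ := hSB3 Γ ρ A B kd
  obtain ⟨-, hsb2, -, hsb4⟩ := hSB4 Γ ρ A B kd
  -- the points
  have hpt : ∀ ξ ∈ P, xp lam (2 * c0) ξ ∈ up ∧ TT lam (xp lam (2 * c0) ξ) = 2 * c0 ∧
      sb A B (xp lam (2 * c0) ξ) ≤ 1 := by
    intro ξ hξ
    obtain ⟨h1, h2⟩ := hP ξ hξ
    obtain ⟨h3, h4, -⟩ := httx2 (2 * c0) ξ hT0 (by linarith) h2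
    exact ⟨h3, h4, hnea2 ξ h1 h2 (2 * c0) hT0 (by linarith)⟩
  have hsub : ∀ ξ ∈ P, Bl (xp lam (2 * c0) ξ) (1 + e) ⊆ {x : Pt | x ∈ up ∧ sb A B x ≤ 6} := by
    intro ξ hξ z hz
    obtain ⟨h1, h2, h3⟩ := hpt ξ hξ
    refine ⟨hz.1, ?_⟩
    have := hsb2 1 (by norm_num) _ h1 z hz.1 (by have := hz.2; linarith) h3
    linarith
  -- embedded and disjoint
  have hkey : ∀ ξ ∈ P, ∀ η ∈ P, ∀ g : Γ, ∀ z ∈ up, z ∈ Bl (xp lam (2 * c0) ξ) (1 + e) →
      au ρ g z ∈ Bl (xp lam (2 * c0) η) (1 + e) → ξ = η ∧ g = 1 := by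
    intro ξ hξ η hη g z hz hz1 hz2
    obtain ⟨hx1, hx2, hx3⟩ := hpt ξ hξ
    obtain ⟨hy1, hy2, hy3⟩ := hpt η hη
    have hgz : au ρ g z ∈ up := (hACT.1 (ρ g) z hz).2.1
    by_cases hne : ξ = η
    · refine ⟨hne, ?_⟩
      by_contra hg
      subst hne
      have h1 := hz1.2
      have h2 := hz2.2
      have h3 := heb _ hx1 hx2 g hg z hz (by linarith)
      linarith
    · exfalso
      have h1 : 2 * c0 ≤ 2 * TT lam z := by
        rw [← hx2]; exact httx5 _ hx1 z hz (by have := hz1.2; linarith)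
      have h2 : 2 * c0 ≤ 2 * TT lam (au ρ g z) := by
        rw [← hy2]; exact httx5 _ hy1 _ hgz (by have := hz2.2; linarith)
      have h3 : Tg ρ lam g (au ρ g z) = TT lam z := by
        unfold Tg au
        rw [← hACT.2.1 _ _ z hz, ← map_mul, inv_mul_cancel, map_one, hACT.2.2.1 z hz]
      obtain ⟨n, hn⟩ := hdt g (au ρ g z) hgz (by linarith) (by rw [h3]; linarith)
      have hξ0 := (hP ξ hξ).2
      have hη0 := (hP η hη).2
      have h4 : au ρ g (xp lam (2 * c0) ξ) = xp lam (2 * c0) (Complex.exp (n * lam) * ξ) := by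
        unfold au
        rw [hn, hana2 n _ hx1]
        unfold xp
        simp only [norm_mul]
        refine Prod.ext ?_ ?_
        · simp only; ring
        · simp only; ring
      have hgx : au ρ g (xp lam (2 * c0) ξ) ∈ up := (hACT.1 (ρ g) _ hx1).2.1
      have h5 : ch (au ρ g (xp lam (2 * c0) ξ)) (au ρ g z) = ch (xp lam (2 * c0) ξ) z :=
        (hCHI.2.1 (ρ g) _ hx1 z hz).1
      have h6 : ch (au ρ g z) (xp lam (2 * c0) η) = ch (xp lam (2 * c0) η) (au ρ g z) :=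
        (hCHI.1 _ hgz _ hy1).2.1
      have h7 := hTRI _ hgx _ hgz _ hy1
      have h8 : 1 ≤ ch (au ρ g (xp lam (2 * c0) ξ)) (au ρ g z) := (hCHI.1 _ hgx _ hgz).1
      have h9 : 1 ≤ ch (au ρ g z) (xp lam (2 * c0) η) := (hCHI.1 _ hgz _ hy1).1
      have h10 := bnd_sqrt _ _ e h8 (by rw [h5]; exact hz1.2) h9 (by rw [h6]; exact hz2.2)
      have h11 := bnd_ch lam (2 * c0) (Complex.exp (n * lam) * ξ) η hlam hT0 hTl
        (mul_ne_zero (Complex.exp_ne_zero _) hξ0) hη0 (hPd ξ hξ η hη hne n)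
      rw [← h4] at h11
      have h12 : 1 + 3 / (20 * (2 * c0) ^ 2) ≤ 2 * (1 + e) ^ 2 - 1 := h11.trans (h7.trans h10)
      have h13 : 3 / (20 * (2 * c0) ^ 2) = 7.5 * (1 / (200 * c0 ^ 2)) := by
        field_simp; norm_num
      have h14 : 0 < 1 / (200 * c0 ^ 2) := by positivity
      rw [h13] at h12
      nlinarith
  have hdis : ∀ ξ ∈ P, ∀ η ∈ P, ∀ γ δ : Γ, ∀ x ∈ up, au ρ γ x ∈ Bl (xp lam (2 * c0) ξ) (1 + e) →
      au ρ δ x ∈ Bl (xp lam (2 * c0) η) (1 + e) → ξ = η ∧ γ = δ := by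
    intro ξ hξ η hη γ δ x hx h1 h2
    have h3 : au ρ (δ * γ⁻¹) (au ρ γ x) = au ρ δ x := by
      unfold au
      rw [← hACT.2.1 _ _ x hx, ← map_mul]
      simp
    obtain ⟨h4, h5⟩ := hkey ξ hξ η hη (δ * γ⁻¹) (au ρ γ x) (hACT.1 (ρ γ) x hx).2.1 h1
      (by rw [h3]; exact h2)
    exact ⟨h4, (mul_inv_eq_one.mp h5).symm⟩
  have hinv : ∀ γ : Γ, ∀ x ∈ up, (au ρ γ x ∈ {x : Pt | x ∈ up ∧ sb A B x ≤ 6} ↔
      x ∈ {x : Pt | x ∈ up ∧ sb A B x ≤ 6}) := by
    intro γ x hx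
    have h1 : au ρ γ x ∈ up := (hACT.1 (ρ γ) x hx).2.1
    have h2 : sb A B (au ρ γ x) = sb A B x := hsb1 γ x hx
    simp only [mem_setOf_eq, h2, h1, hx]
  have hsumle := bnd_count hSW1 (au ρ) D _ hact hD (hsb4 6) hinv P
    (fun ξ => Bl (xp lam (2 * c0) ξ) (1 + e)) (fun ξ _ => Bl_meas _ _) hsub hdis
  have hsum2 : (P.card : ℝ≥0∞) * ENNReal.ofReal v ≤ vol (D ∩ {x : Pt | x ∈ up ∧ sb A B x ≤ 6}) := by
    refine le_trans ?_ hsumle
    rw [← nsmul_eq_mul, ← Finset.sum_const]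
    apply Finset.sum_le_sum
    intro ξ hξ
    rw [Bl_vol hACT hCHI hVOL _ (hpt ξ hξ).1]
    exact hv1
  have hfin : ENNReal.ofReal ((2 - s) * (P.card * v)) ≤ ENNReal.ofReal C₁ := by
    refine le_trans ?_ hC
    rw [ENNReal.ofReal_mul h2s.le, ENNReal.ofReal_mul (by positivity), ENNReal.ofReal_natCast]
    gcongr
  have hfin2 : (2 - s) * (P.card * v) ≤ C₁ := (ENNReal.ofReal_le_ofReal_iff hC₁.le).mp hfin
  rw [le_div_iff₀ h2s]
  refine le_trans ?_ (le_max_right _ _)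
  rw [le_div_iff₀ hv0]
  linarith

end Pool.Agent.Helper56.QT
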