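import Pool.Agent.Helper88.QT.St2
import Pool.Agent.Helper85.QT.St1

set_option autoImplicit false

open MeasureTheory Matrix Set Topology
open scoped ENNReal ComplexConjugate

namespace Pool.Agent.Helper56.QT
open Pool.Agent.Helper88.QT Pool.Agent.Helper85.QT Pool.Agent.Helper86.QA
open Pool.Agent.Helper35.PM (hs)

theorem rec_exp (s v v' : ℝ) (hs0 : 0 ≤ s) (hv : v ≤ v') :
    Real.exp (-(s * (v' - v))) ≤ Real.cosh (v - v') ^ (-s) := by
  have h1 : Real.cosh (v - v') ≤ Real.exp (v' - v) := by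
    rw [Real.cosh_eq, neg_sub]
    have : Real.exp (v - v') ≤ Real.exp (v' - v) := Real.exp_le_exp.mpr (by linarith)
    linarith
  have h2 : Real.exp (-(s * (v' - v))) = Real.exp (v' - v) ^ (-s) := by
    rw [← Real.exp_mul]; congr 1; ring
  rw [h2]
  exact Real.rpow_le_rpow_of_nonpos (Real.cosh_pos _) h1 (by linarith)

theorem rec_tri (hCHI : StCHI) (s K1 K2 : ℝ) (hs0 : 0 ≤ s) (hs2 : s ≤ 2) (x p q z : Pt)
    (hx : x ∈ up) (hp : p ∈ up) (hq : q ∈ up) (hz : z ∈ up) (h1 : ch x p ≤ K1) (h2 : ch q z ≤ K2) :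
    ch p q ^ (-s) ≤ (4 * K1 * K2) ^ 2 * ch x z ^ (-s) := by
  have a1 : 1 ≤ ch x p := (hCHI.1 x hx p hp).1
  have a2 : 1 ≤ ch q z := (hCHI.1 q hq z hz).1
  have a3 : 1 ≤ ch p q := (hCHI.1 p hp q hq).1
  have a4 : 1 ≤ ch x z := (hCHI.1 x hx z hz).1
  have a5 : 1 ≤ ch p z := (hCHI.1 p hp z hz).1
  have b1 := hCHI.2.2.1 x hx p hp z hz
  have b2 := hCHI.2.2.1 p hp q hq z hz
  have hK1 : 1 ≤ K1 := a1.trans h1
  have hK2 : 1 ≤ K2 := a2.trans h2
  have hK : 1 ≤ 4 * K1 * K2 := by nlinarith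
  have hK0 : 0 < 4 * K1 * K2 := by linarith
  have b3 : ch x z ≤ 4 * K1 * K2 * ch p q := by
    calc ch x z ≤ 2 * ch x p * ch p z := b1
      _ ≤ 2 * K1 * (2 * ch p q * ch q z) := by gcongr
      _ ≤ 2 * K1 * (2 * ch p q * K2) := by gcongr
      _ = _ := by ring
  have b4 : ch x z / (4 * K1 * K2) ≤ ch p q := by
    rw [div_le_iff₀ hK0]; linarith
  have hxz : 0 < ch x z := by linarith
  calc ch p q ^ (-s) ≤ (ch x z / (4 * K1 * K2)) ^ (-s) :=
        Real.rpow_le_rpow_of_nonpos (by positivity) b4 (by linarith)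
    _ = (4 * K1 * K2) ^ s * ch x z ^ (-s) := by
        rw [Real.div_rpow hxz.le hK0.le, Real.rpow_neg hK0.le, div_inv_eq_mul, mul_comm]
    _ ≤ (4 * K1 * K2) ^ 2 * ch x z ^ (-s) := by
        apply mul_le_mul_of_nonneg_right _ (Real.rpow_nonneg hxz.le _)
        rw [← Real.rpow_natCast]
        exact Real.rpow_le_rpow_of_exponent_le hK (by exact_mod_cast hs2)


theorem rec_mem {Γ : Type} [Group Γ] (ρ : Γ →* SL) (A B : Set ℂ) (α : Γ) (lam : ℂ) (m s : ℝ)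
    (X : Pt) (R : ℝ) (o : Pt) (D : ℝ) (N : ℕ) (g : Γ) (a b : ℂ) (u u' : ℝ)
    (h1 : Adm ρ A B α lam a b u u') (h2 : (Cr ρ α lam a b u u').ncard ≤ N)
    (h3 : ch X (gp a b u) ≤ R) (h4 : ch (ga (ρ g) o) (gp a b u') ≤ D) :
    ENNReal.ofReal (Real.exp (Om ρ α lam m a b u u' / 80 - s * (u' - u))) ≤
      EN ρ A B α lam m s X R o D N g := by
  unfold EN
  exact le_iSup₂_of_le ((a, b), (u, u')) ⟨h1, h2, h3, h4⟩ le_rfl

theorem rec_tail (hACT : StACT) (hCHI : StCHI) (hGPM : StGPM) (hINV : StINV)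
    {Γ : Type} [Group Γ] (ρ : Γ →* SL) (A B : Set ℂ) (α : Γ) (lam : ℂ) (M : ℝ)
    (G : ℂ → ℂ) (m : ℝ) (φ : ℂ → ℂ) (C3 : ℝ) (hann : Ann ρ A B α lam M G m φ C3)
    (s : ℝ) (X : Pt) (hX : X ∈ up) (R : ℝ) (o : Pt) (ho : o ∈ up) (D : ℝ) (N : ℕ) (g δ : Γ)
    (a b : ℂ) (u u' : ℝ)
    (h1 : Adm ρ A B α lam a b u u') (h2 : (Cr ρ α lam a b u u').ncard ≤ N)
    (h3 : ch (ga (ρ δ) X) (gp a b u) ≤ R) (h4 : ch (ga (ρ g) o) (gp a b u') ≤ D) :
    ENNReal.ofReal (Real.exp (Om ρ α lam m a b u u' / 80 - s * (u' - u))) ≤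
      EN ρ A B α lam m s X R o D N (δ⁻¹ * g) := by
  obtain ⟨-, -, hinv⟩ := hINV Γ ρ A B α lam M G m φ C3 hann
  obtain ⟨κ, k1, k2, k3, k4⟩ := hinv δ⁻¹ a b u u' h1
  have hu : gp a b u ∈ up := (hGPM.1 a b u u h1.ne).1
  have hu' : gp a b u' ∈ up := (hGPM.1 a b u' u' h1.ne).1
  have hgo : ga (ρ g) o ∈ up := (hACT.1 _ o ho).2.1
  have e1 : ch X (gp (mb (ρ δ⁻¹) a) (mb (ρ δ⁻¹) b) (u + κ)) ≤ R := by
    rw [← k2 u]
    have hb : ga (ρ δ) (ga (ρ δ⁻¹) (gp a b u)) = gp a b u := by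
      rw [← hACT.2.1 _ _ _ hu, ← map_mul, mul_inv_cancel, map_one, hACT.2.2.1 _ hu]
    have hc := (hCHI.2.1 (ρ δ) X hX (ga (ρ δ⁻¹) (gp a b u)) (hACT.1 _ _ hu).2.1).1
    rw [hb] at hc
    rw [← hc]; exact h3
  have e2 : ch (ga (ρ (δ⁻¹ * g)) o) (gp (mb (ρ δ⁻¹) a) (mb (ρ δ⁻¹) b) (u' + κ)) ≤ D := by
    rw [← k2 u', map_mul, hACT.2.1 _ _ o ho, (hCHI.2.1 (ρ δ⁻¹) _ hgo _ hu').1]
    exact h4
  have e3 := rec_mem ρ A B α lam m s X R o D N (δ⁻¹ * g) _ _ _ _ k1 (by rw [k3]; exact h2) e1 e2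
  rw [k4 m] at e3
  have e4 : u' + κ - (u + κ) = u' - u := by ring
  rwa [e4] at e3


theorem rec_first (hCHI : StCHI) (hGPM : StGPM) (s R' D : ℝ) (hs0 : 0 ≤ s) (hs2 : s ≤ 2)
    (X z : Pt) (hX : X ∈ up) (hz : z ∈ up) (a b : ℂ) (u u' : ℝ) (hab : a ≠ b) (hu : u ≤ u')
    (h3 : ch X (gp a b u) ≤ R') (h4 : ch z (gp a b u') ≤ D) :
    Real.exp (-(s * (u' - u))) ≤ (4 * R' * D) ^ 2 * ch X z ^ (-s) := by
  obtain ⟨g1, g2, -⟩ := hGPM.1 a b u u' hab
  obtain ⟨g3, -, -⟩ := hGPM.1 a b u' u' hab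
  refine (rec_exp s u u' hs0 hu).trans ?_
  rw [← g2]
  apply rec_tri hCHI s R' D hs0 hs2 X _ _ z hX g1 g3 hz h3
  rw [(hCHI.1 _ g3 z hz).2.1]
  exact h4

/-- the bound for one crossing -/
theorem rec_term (hACT : StACT) (hCHI : StCHI) (hGPM : StGPM) (hXPT : StXPT) (hINV : StINV)
    (hPRT : StPRT) {Γ : Type} [Group Γ] (ρ : Γ →* SL) (A B : Set ℂ) (α : Γ) (lam : ℂ) (M : ℝ)
    (G : ℂ → ℂ) (m : ℝ) (φ : ℂ → ℂ) (C3 : ℝ) (hann : Ann ρ A B α lam M G m φ C3)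
    (hlam : ‖lam‖ ≤ 1 / 3200) (k : ℕ) (ξ : Fin k → ℂ) (hξ : ∀ y, ξ y ∈ LS A B ∧ ξ y ≠ 0)
    (hcov : ∀ η ∈ LS A B, η ≠ 0 → ∃ y, ∃ n : ℤ, fd lam η (Complex.exp (n * lam) * ξ y) < 1)
    (s : ℝ) (hs1 : 1 ≤ s) (hs2 : s ≤ 2) (o : Pt) (ho : o ∈ up) (D : ℝ) (X : Pt)
    (hX : X ∈ up) (R' : ℝ) (N : ℕ) (g : Γ) (a b : ℂ) (u u' sj tj : ℝ) (j : Li α)
    (hadm : Adm ρ A B α lam a b u u') (h3 : ch X (gp a b u) ≤ R')
    (h4 : ch (ga (ρ g) o) (gp a b u') ≤ D) (i1 : u ≤ sj) (i2 : sj < tj)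
    (i5 : Ti ρ α lam j (gp a b sj) = 2 * cz) (i6 : Ti ρ α lam j (gp a b tj) = 2 * cz)
    (i7 : fd lam (rd (ga (ρ (Quotient.out j)⁻¹) (gp a b sj))) (mb (ρ (Quotient.out j)⁻¹) b) ≤ 16 * cz)
    (i8 : fd lam (rd (ga (ρ (Quotient.out j)⁻¹) (gp a b tj))) (mb (ρ (Quotient.out j)⁻¹) a) ≤ 16 * cz)
    (i9 : Adm ρ A B α lam a b tj u') (i10 : (Cr ρ α lam a b tj u').ncard ≤ N) :
    ∃ g₁ : Γ, (QuotientGroup.mk g₁ : Li α) = j ∧
      ENNReal.ofReal ((Real.exp (oi ρ α lam m j a b / 80) - 1) *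
        Real.exp (Om ρ α lam m a b tj u' / 80) * Real.exp (-(s * (u' - u)))) ≤
      ∑ y : Fin k, ∑' n : ℤ, ∑ y' : Fin k,
        ENNReal.ofReal ((10 ^ 9 * R') ^ 2 * ch X (ga (ρ g₁) (xp lam (2 * cz) (ξ y))) ^ (-s)) *
        ENNReal.ofReal ((Real.exp (om lam m (ξ y) (Complex.exp (n * lam) * ξ y') / 4) - 1) *
          ch (xp lam (2 * cz) (ξ y)) (xp lam (2 * cz) (Complex.exp (n * lam) * ξ y')) ^ (-s)) *
        EN ρ A B α lam m s (xp lam (2 * cz) (ξ y')) 66 o D N ((g₁ * α ^ n)⁻¹ * g) := by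
  have hs0 : 0 ≤ s := by linarith
  have hl0 : lam ≠ 0 := by
    intro h
    have := hann.re
    rw [h] at this
    simp at this
  have hgj : ga (ρ g) o ∈ up := (hACT.1 _ o ho).2.1
  obtain ⟨p1, y, y', n, p2, p3, p4, p5, p6, p7⟩ :=
    hPRT Γ ρ A B α lam M G m φ C3 hann hlam k ξ hξ hcov a b sj tj j hadm.la hadm.lb hadm.ne hadm.ra
      hadm.rb i5 i6 i7 i8
  have hcz : 2 * cz * ‖lam‖ ≤ 1 := by unfold cz; linarith
  have hcz0 : (0 : ℝ) < 2 * cz := by unfold cz; norm_num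
  have hxy : xp lam (2 * cz) (ξ y) ∈ up := ((hXPT lam hl0).1 (2 * cz) (ξ y) hcz0 hcz (hξ y).2).1
  have hxy' : xp lam (2 * cz) (ξ y') ∈ up := ((hXPT lam hl0).1 (2 * cz) (ξ y') hcz0 hcz (hξ y').2).1
  have hxe : xp lam (2 * cz) (Complex.exp (n * lam) * ξ y') ∈ up :=
    ((hXPT lam hl0).1 (2 * cz) _ hcz0 hcz (mul_ne_zero (Complex.exp_ne_zero _) (hξ y').2)).1
  refine ⟨p1, p2, ?_⟩
  have hg1 : ga (ρ p1) (xp lam (2 * cz) (ξ y)) ∈ up := (hACT.1 _ _ hxy).2.1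
  have hg2 : ga (ρ p1) (xp lam (2 * cz) (Complex.exp (n * lam) * ξ y')) ∈ up := (hACT.1 _ _ hxe).2.1
  obtain ⟨g1, -, -⟩ := hGPM.1 a b u u hadm.ne
  obtain ⟨g3, g4, -⟩ := hGPM.1 a b sj tj hadm.ne
  obtain ⟨g5, -, -⟩ := hGPM.1 a b tj tj hadm.ne
  have q1 : Real.exp (-(s * (sj - u))) ≤ (4 * R' * 66) ^ 2 *
      ch X (ga (ρ p1) (xp lam (2 * cz) (ξ y))) ^ (-s) :=
    rec_first hCHI hGPM s R' 66 hs0 hs2 X _ hX hg1 a b u sj hadm.ne i1 h3 p3
  have q2 : Real.exp (-(s * (tj - sj))) ≤ (4 * 66 * 66) ^ 2 *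
      ch (xp lam (2 * cz) (ξ y)) (xp lam (2 * cz) (Complex.exp (n * lam) * ξ y')) ^ (-s) := by
    rw [← (hCHI.2.1 (ρ p1) _ hxy _ hxe).1]
    apply rec_first hCHI hGPM s 66 66 hs0 hs2 _ _ hg1 hg2 a b sj tj hadm.ne i2.le p3
    rw [← p5]; exact p4
  have q3 := rec_tail hACT hCHI hGPM hINV ρ A B α lam M G m φ C3 hann s _ hxy' 66 o ho D N g
    (p1 * α ^ n) a b tj u' i9 i10 p4 h4
  set E1 := Real.exp (-(s * (sj - u))) with hE1
  set E2 := Real.exp (-(s * (tj - sj))) with hE2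
  have hsplit : (Real.exp (oi ρ α lam m j a b / 80) - 1) *
        Real.exp (Om ρ α lam m a b tj u' / 80) * Real.exp (-(s * (u' - u))) =
      E1 * ((Real.exp (oi ρ α lam m j a b / 80) - 1) * E2) *
        Real.exp (Om ρ α lam m a b tj u' / 80 - s * (u' - tj)) := by
    have e1 : Real.exp (-(s * (u' - u))) = E1 * E2 * Real.exp (-(s * (u' - tj))) := by
      rw [hE1, hE2, ← Real.exp_add, ← Real.exp_add]; congr 1; ring
    have e2 : Real.exp (Om ρ α lam m a b tj u' / 80 - s * (u' - tj)) =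
        Real.exp (Om ρ α lam m a b tj u' / 80) * Real.exp (-(s * (u' - tj))) := by
      rw [← Real.exp_add]; congr 1
    rw [e1, e2]; ring
  have hoi1 : 0 ≤ Real.exp (oi ρ α lam m j a b / 80) - 1 := by
    have := Real.one_le_exp (x := oi ρ α lam m j a b / 80) (by positivity)
    linarith
  have hoi2 : Real.exp (oi ρ α lam m j a b / 80) - 1 ≤
      Real.exp (om lam m (ξ y) (Complex.exp (n * lam) * ξ y') / 4) - 1 := by
    have := Real.exp_le_exp.mpr p7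
    linarith
  have hch0 : 0 ≤ ch (xp lam (2 * cz) (ξ y)) (xp lam (2 * cz) (Complex.exp (n * lam) * ξ y')) ^ (-s) := by
    apply Real.rpow_nonneg
    have := (hCHI.1 _ hxy _ hxe).1
    linarith
  have hch1 : 0 ≤ ch X (ga (ρ p1) (xp lam (2 * cz) (ξ y))) ^ (-s) := by
    apply Real.rpow_nonneg
    have := (hCHI.1 _ hX _ hg1).1
    linarith
  have hreal : E1 * ((Real.exp (oi ρ α lam m j a b / 80) - 1) * E2) ≤
      ((10 ^ 9 * R') ^ 2 * ch X (ga (ρ p1) (xp lam (2 * cz) (ξ y))) ^ (-s)) *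
      ((Real.exp (om lam m (ξ y) (Complex.exp (n * lam) * ξ y') / 4) - 1) *
        ch (xp lam (2 * cz) (ξ y)) (xp lam (2 * cz) (Complex.exp (n * lam) * ξ y')) ^ (-s)) := by
    calc E1 * ((Real.exp (oi ρ α lam m j a b / 80) - 1) * E2)
        ≤ ((4 * R' * 66) ^ 2 * ch X (ga (ρ p1) (xp lam (2 * cz) (ξ y))) ^ (-s)) *
          ((Real.exp (om lam m (ξ y) (Complex.exp (n * lam) * ξ y') / 4) - 1) *
          ((4 * 66 * 66) ^ 2 *
            ch (xp lam (2 * cz) (ξ y)) (xp lam (2 * cz) (Complex.exp (n * lam) * ξ y')) ^ (-s))) := by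
          apply mul_le_mul q1 _ (mul_nonneg hoi1 (Real.exp_pos _).le) (by positivity)
          exact mul_le_mul hoi2 q2 (Real.exp_pos _).le (hoi1.trans hoi2)
      _ = (4 * 66 * (4 * 66 * 66)) ^ 2 * (R' ^ 2 *
          (ch X (ga (ρ p1) (xp lam (2 * cz) (ξ y))) ^ (-s) *
          ((Real.exp (om lam m (ξ y) (Complex.exp (n * lam) * ξ y') / 4) - 1) *
            ch (xp lam (2 * cz) (ξ y)) (xp lam (2 * cz) (Complex.exp (n * lam) * ξ y')) ^ (-s)))) := by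
          ring
      _ ≤ (10 ^ 9) ^ 2 * (R' ^ 2 *
          (ch X (ga (ρ p1) (xp lam (2 * cz) (ξ y))) ^ (-s) *
          ((Real.exp (om lam m (ξ y) (Complex.exp (n * lam) * ξ y') / 4) - 1) *
            ch (xp lam (2 * cz) (ξ y)) (xp lam (2 * cz) (Complex.exp (n * lam) * ξ y')) ^ (-s)))) := by
          apply mul_le_mul_of_nonneg_right (by norm_num)
          exact mul_nonneg (sq_nonneg _) (mul_nonneg hch1 (mul_nonneg (hoi1.trans hoi2) hch0))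
      _ = _ := by ring
  rw [hsplit, ENNReal.ofReal_mul (mul_nonneg (Real.exp_pos _).le (mul_nonneg hoi1 (Real.exp_pos _).le))]
  have hterm : ENNReal.ofReal (E1 * ((Real.exp (oi ρ α lam m j a b / 80) - 1) * E2)) *
      ENNReal.ofReal (Real.exp (Om ρ α lam m a b tj u' / 80 - s * (u' - tj))) ≤
      ENNReal.ofReal ((10 ^ 9 * R') ^ 2 * ch X (ga (ρ p1) (xp lam (2 * cz) (ξ y))) ^ (-s)) *
        ENNReal.ofReal ((Real.exp (om lam m (ξ y) (Complex.exp (n * lam) * ξ y') / 4) - 1) *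
          ch (xp lam (2 * cz) (ξ y)) (xp lam (2 * cz) (Complex.exp (n * lam) * ξ y')) ^ (-s)) *
        EN ρ A B α lam m s (xp lam (2 * cz) (ξ y')) 66 o D N ((p1 * α ^ n)⁻¹ * g) := by
    apply mul_le_mul' _ q3
    rw [← ENNReal.ofReal_mul (by positivity)]
    exact ENNReal.ofReal_le_ofReal hreal
  refine hterm.trans ?_
  refine le_trans ?_ (Finset.single_le_sum (f := fun y : Fin k => ∑' n : ℤ, ∑ y' : Fin k,
        ENNReal.ofReal ((10 ^ 9 * R') ^ 2 * ch X (ga (ρ p1) (xp lam (2 * cz) (ξ y))) ^ (-s)) *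
        ENNReal.ofReal ((Real.exp (om lam m (ξ y) (Complex.exp (n * lam) * ξ y') / 4) - 1) *
          ch (xp lam (2 * cz) (ξ y)) (xp lam (2 * cz) (Complex.exp (n * lam) * ξ y')) ^ (-s)) *
        EN ρ A B α lam m s (xp lam (2 * cz) (ξ y')) 66 o D N ((p1 * α ^ n)⁻¹ * g))
        (fun _ _ => bot_le) (Finset.mem_univ y))
  refine le_trans ?_ (ENNReal.le_tsum n)
  exact Finset.single_le_sum (f := fun y' : Fin k =>
        ENNReal.ofReal ((10 ^ 9 * R') ^ 2 * ch X (ga (ρ p1) (xp lam (2 * cz) (ξ y))) ^ (-s)) *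
        ENNReal.ofReal ((Real.exp (om lam m (ξ y) (Complex.exp (n * lam) * ξ y') / 4) - 1) *
          ch (xp lam (2 * cz) (ξ y)) (xp lam (2 * cz) (Complex.exp (n * lam) * ξ y')) ^ (-s)) *
        EN ρ A B α lam m s (xp lam (2 * cz) (ξ y')) 66 o D N ((p1 * α ^ n)⁻¹ * g))
        (fun _ _ => bot_le) (Finset.mem_univ y')


theorem hREC (hACT : Pool.Agent.Helper86.QA.StACT) (hCHI : Pool.Agent.Helper86.QA.StCHI)
    (hGPM : Pool.Agent.Helper88.QT.StGPM) (hXPT : Pool.Agent.Helper88.QT.StXPT)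
    (hTEL : Pool.Agent.Helper88.QT.StTEL) (hINV : Pool.Agent.Helper88.QT.StINV)
    (hINT : Pool.Agent.Helper88.QT.StINT) (hPRT : Pool.Agent.Helper88.QT.StPRT) :
    Pool.Agent.Helper88.QT.StREC := by
  classical
  refine ⟨10 ^ 9, by norm_num, ?_⟩
  intro Γ _ ρ A B α lam M G m φ C3 hann hlam k ξ hξ hcov s hs1 hs2 o ho D hD X hX R' hR'
  have hs0 : 0 ≤ s := by linarith
  obtain ⟨-, hint⟩ := hINT Γ ρ A B α lam M G m φ C3 hann hlam
  have hfirst : ∀ (g : Γ) (a b : ℂ) (u u' : ℝ), Adm ρ A B α lam a b u u' → ch X (gp a b u) ≤ R' →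
      ch (ga (ρ g) o) (gp a b u') ≤ D →
      ENNReal.ofReal (Real.exp (-(s * (u' - u)))) ≤
        ENNReal.ofReal ((10 ^ 9 * R' * D) ^ 2 * ch X (ga (ρ g) o) ^ (-s)) := by
    intro g a b u u' hadm h3 h4
    have hgo : ga (ρ g) o ∈ up := (hACT.1 _ o ho).2.1
    apply ENNReal.ofReal_le_ofReal
    refine (rec_first hCHI hGPM s R' D hs0 hs2 X _ hX hgo a b u u' hadm.ne hadm.le h3 h4).trans ?_
    apply mul_le_mul_of_nonneg_right
    · apply pow_le_pow_left₀ (by positivity)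
      gcongr
      norm_num
    · apply Real.rpow_nonneg
      have := (hCHI.1 _ hX _ hgo).1
      linarith
  refine ⟨?_, ?_⟩
  · intro g
    unfold EN
    apply iSup₂_le
    rintro ⟨⟨a, b⟩, ⟨u, u'⟩⟩ ⟨hadm, hnc, h3, h4⟩
    simp only at hadm hnc h3 h4 ⊢
    obtain ⟨hfin, -⟩ := hint a b u u' hadm
    have hemp : Cr ρ α lam a b u u' = ∅ := by
      rw [← Set.ncard_eq_zero hfin]; omega
    have hOm : Om ρ α lam m a b u u' = 0 := by
      unfold Om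
      rw [hemp]
      simp
    rw [hOm, zero_div, zero_sub]
    exact hfirst g a b u u' hadm h3 h4
  · intro N g
    conv_lhs => unfold EN
    apply iSup₂_le
    rintro ⟨⟨a, b⟩, ⟨u, u'⟩⟩ ⟨hadm, hnc, h3, h4⟩
    simp only at hadm hnc h3 h4 ⊢
    obtain ⟨hfin, sf, tf, hc1, hc2, hc3⟩ := hint a b u u' hadm
    set S : Finset (Li α) := hfin.toFinset with hS
    have hmemS : ∀ i, i ∈ S ↔ i ∈ Cr ρ α lam a b u u' := fun i => hfin.mem_toFinset
    have hOm : Om ρ α lam m a b u u' = ∑ i ∈ S, oi ρ α lam m i a b := by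
      unfold Om
      exact finsum_mem_eq_finite_toFinset_sum _ hfin
    have hinj : ∀ i ∈ S, ∀ j ∈ S, sf i = sf j → i = j := by
      intro i hi j hj hij
      by_contra hne
      have hi' := (hmemS i).mp hi
      have hj' := (hmemS j).mp hj
      obtain ⟨-, hi2, -⟩ := hc1 i hi'
      obtain ⟨-, hj2, -⟩ := hc1 j hj'
      rcases hc2 i hi' j hj' hne with h | h
      · linarith
      · linarith
    have htel := hTEL (Li α) S sf (fun i => oi ρ α lam m i a b / 80) hinj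
    have hsum80 : Om ρ α lam m a b u u' / 80 = ∑ i ∈ S, oi ρ α lam m i a b / 80 := by
      rw [hOm, Finset.sum_div]
    have htail : ∀ j ∈ S, Om ρ α lam m a b (tf j) u' / 80 =
        ∑ i ∈ S.filter (fun i => sf j < sf i), oi ρ α lam m i a b / 80 := by
      intro j hj
      obtain ⟨-, hc3j⟩ := hc3 j ((hmemS j).mp hj)
      rw [← Finset.sum_div]
      congr 1
      unfold Om
      rw [hc3j]
      rw [finsum_mem_eq_sum_of_inter_support_eq]
      congr 1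
      ext i
      simp only [Finset.coe_filter, hmemS]
    have hkey : Real.exp (Om ρ α lam m a b u u' / 80 - s * (u' - u)) =
        Real.exp (-(s * (u' - u))) + ∑ j ∈ S, (Real.exp (oi ρ α lam m j a b / 80) - 1) *
          Real.exp (Om ρ α lam m a b (tf j) u' / 80) * Real.exp (-(s * (u' - u))) := by
      have e1 : Real.exp (Om ρ α lam m a b u u' / 80 - s * (u' - u)) =
          Real.exp (Om ρ α lam m a b u u' / 80) * Real.exp (-(s * (u' - u))) := by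
        rw [← Real.exp_add]; congr 1
      rw [e1, hsum80, htel, add_mul, one_mul, Finset.sum_mul]
      congr 1
      apply Finset.sum_congr rfl
      intro j hj
      rw [htail j hj]
    rw [hkey]
    refine ENNReal.ofReal_add_le.trans ?_
    apply add_le_add (hfirst g a b u u' hadm h3 h4)
    have hterm : ∀ j ∈ S, ∃ g₁ : Γ, (QuotientGroup.mk g₁ : Li α) = j ∧
      ENNReal.ofReal ((Real.exp (oi ρ α lam m j a b / 80) - 1) *
        Real.exp (Om ρ α lam m a b (tf j) u' / 80) * Real.exp (-(s * (u' - u)))) ≤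
      ∑ y : Fin k, ∑' n : ℤ, ∑ y' : Fin k,
        ENNReal.ofReal ((10 ^ 9 * R') ^ 2 * ch X (ga (ρ g₁) (xp lam (2 * cz) (ξ y))) ^ (-s)) *
        ENNReal.ofReal ((Real.exp (om lam m (ξ y) (Complex.exp (n * lam) * ξ y') / 4) - 1) *
          ch (xp lam (2 * cz) (ξ y)) (xp lam (2 * cz) (Complex.exp (n * lam) * ξ y')) ^ (-s)) *
        EN ρ A B α lam m s (xp lam (2 * cz) (ξ y')) 66 o D N ((g₁ * α ^ n)⁻¹ * g) := by
      intro j hj
      have hj' := (hmemS j).mp hj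
      obtain ⟨i1, i2, i3, i4, i5, i6, i7, i8⟩ := hc1 j hj'
      obtain ⟨i9, i10⟩ := hc3 j hj'
      apply rec_term hACT hCHI hGPM hXPT hINV hPRT ρ A B α lam M G m φ C3 hann hlam k ξ hξ hcov s hs1
        hs2 o ho D X hX R' N g a b u u' (sf j) (tf j) j hadm h3 h4 i1 i2 i5 i6 i7 i8 i9
      rw [i10]
      have hlt : ({i | i ∈ Cr ρ α lam a b u u' ∧ sf j < sf i} : Set (Li α)).ncard <
          (Cr ρ α lam a b u u').ncard := by
        apply Set.ncard_lt_ncard _ hfin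
        refine ⟨fun i hi => hi.1, ?_⟩
        intro h
        have := h hj'
        exact lt_irrefl _ this.2
      omega
    choose! f hf1 hf2 using hterm
    have hfinj : Set.InjOn f (S : Set (Li α)) := by
      intro i hi j hj hij
      rw [← hf1 i hi, ← hf1 j hj, hij]
    calc ENNReal.ofReal (∑ j ∈ S, (Real.exp (oi ρ α lam m j a b / 80) - 1) *
          Real.exp (Om ρ α lam m a b (tf j) u' / 80) * Real.exp (-(s * (u' - u))))
        ≤ ∑ j ∈ S, ENNReal.ofReal ((Real.exp (oi ρ α lam m j a b / 80) - 1) *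
          Real.exp (Om ρ α lam m a b (tf j) u' / 80) * Real.exp (-(s * (u' - u)))) := by
          exact Finset.le_sum_of_subadditive ENNReal.ofReal ENNReal.ofReal_zero.le
            (fun x y => ENNReal.ofReal_add_le) _ _
      _ ≤ ∑ j ∈ S, (fun g₁ : Γ => ∑ y : Fin k, ∑' n : ℤ, ∑ y' : Fin k,
        ENNReal.ofReal ((10 ^ 9 * R') ^ 2 * ch X (ga (ρ g₁) (xp lam (2 * cz) (ξ y))) ^ (-s)) *
        ENNReal.ofReal ((Real.exp (om lam m (ξ y) (Complex.exp (n * lam) * ξ y') / 4) - 1) *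
          ch (xp lam (2 * cz) (ξ y)) (xp lam (2 * cz) (Complex.exp (n * lam) * ξ y')) ^ (-s)) *
        EN ρ A B α lam m s (xp lam (2 * cz) (ξ y')) 66 o D N ((g₁ * α ^ n)⁻¹ * g)) (f j) :=
          Finset.sum_le_sum hf2
      _ ≤ _ := by
          rw [← Finset.sum_image (f := (fun g₁ : Γ => ∑ y : Fin k, ∑' n : ℤ, ∑ y' : Fin k,
        ENNReal.ofReal ((10 ^ 9 * R') ^ 2 * ch X (ga (ρ g₁) (xp lam (2 * cz) (ξ y))) ^ (-s)) *
        ENNReal.ofReal ((Real.exp (om lam m (ξ y) (Complex.exp (n * lam) * ξ y') / 4) - 1) *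
          ch (xp lam (2 * cz) (ξ y)) (xp lam (2 * cz) (Complex.exp (n * lam) * ξ y')) ^ (-s)) *
        EN ρ A B α lam m s (xp lam (2 * cz) (ξ y')) 66 o D N ((g₁ * α ^ n)⁻¹ * g))) hfinj]
          exact ENNReal.sum_le_tsum _

end Pool.Agent.Helper56.QT
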